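import Pool.Agent.H36.GH.BTH
import Pool.Agent.H74.GH.CI
import Pool.Agent.H36.GH.DVE
import Pool.Agent.H62.GH.SBH
import Pool.Agent.H74.GH.EXC
import Pool.Agent.H74.GH.EXL
import Pool.Agent.H36.GH.EXN
import Pool.Agent.H36.GH.FIL
import Pool.Agent.H36.GH.GPO
import Pool.Agent.H65.GH.LOC
import Pool.Agent.H62.GH.NUM
import Pool.Agent.H74.GH.NVA
import Pool.Agent.H36.GH.NVB
import Pool.Agent.H65.GH.PSI
import Pool.Agent.H74.GH.SUB
import Pool.Agent.H36.GH.THT
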