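import Pool.Agent.H27.GH.Final
import Pool.Agent.H27.GH.Mods
import Pool.Agent.H27.LV.All

/-!
# MP_70ba79_ag: assembly of the modules of the board `gh_modules`
-/

set_option autoImplicit false

namespace Pool.Agent.H27.GH

open Pool.Agent.H27.LV

theorem tBIC : T_BIC := Pool.Agent.H36.GH.BIC.bic
theorem tBTH : T_BTH := Pool.Agent.H36.GH.BTH.bth tBIC
theorem tCI : T_CI := Pool.Agent.H74.GH.ci
theorem tDVE : T_DVE := Pool.Agent.H36.GH.DVE.dve
theorem tEVB : T_EVB := Pool.Agent.H62.GH.evb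
theorem tSBH : T_SBH := Pool.Agent.H62.GH.sbh
theorem tEXC : T_EXC := Pool.Agent.H74.GH.exc
theorem tSUB : T_SUB := Pool.Agent.H74.GH.sub
theorem tEXL : T_EXL := Pool.Agent.H74.GH.exl tSUB tSBH
theorem tEXN : T_EXN := Pool.Agent.H36.GH.EXN.exn tEXC tCRD
theorem tFIL : T_FIL := Pool.Agent.H36.GH.FIL.fil
theorem tGPO : T_GPO := Pool.Agent.H36.GH.GPO.gpo
theorem tPSI : T_PSI := Pool.Agent.H65.GH.pf_PSI tBIC
theorem tLOC' : T_LOC' := Pool.Agent.H65.GH.pf_LOC tPSI tEVB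
theorem tNUM : T_NUM := Pool.Agent.H62.GH.num
theorem tNVC : T_NVC := Pool.Agent.H62.GH.nvc
theorem tNVA : T_NVA := Pool.Agent.H74.GH.nva
theorem tNVB : T_NVB := Pool.Agent.H36.GH.NVB.nvb
theorem tTHT : T_THT := Pool.Agent.H36.GH.THT.tht
theorem tNVN : T_NVN := nvn tNVA tNVB tNVC
theorem tAUX : T_AUX := aux tEXN tEXL tTHT tFIL tBTH tNVN
theorem tGLB : T_GLB := glb tDVE tCI tLOC' tDFI

end Pool.Agent.H27.GH
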