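import Pool.Agent.H27.GH.Targets

/-!
# MP_70ba79_ag: targets NVN and AUX
-/

set_option autoImplicit false

namespace Pool.Agent.H27.GH

open MvPolynomial SC Pool.Agent.H27.LV

theorem nvn (hNVA : T_NVA) (hNVB : T_NVB) (hNVC : T_NVC) : T_NVN := by
  classical
  intro k _ _ K _ _ n q a0 j b1 b2 P hP hne z y hy
  obtain ⟨hN0, hNd⟩ := hNVA k K n q a0 j b1 b2 P hP hne z y hy
  by_contra hcon
  push Not at hcon
  let T : Finset (Par n q) := Finset.univ.map ⟨Sum.inr, Sum.inr_injective⟩
  let g : Par n q → MvPolynomial (Fin n ⊕ Fin n) K :=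
    (Sum.elim X fun is => Fin.cases (motive := fun _ => MvPolynomial (Fin n ⊕ Fin n) K)
      (∑ s : Fin n, C (algebraMap k K (a0 is.1 s.succ)) * X (Sum.inl s))
      (fun s => if s = j then ∑ r : Fin n, C (algebraMap k K (a0 is.1 r.succ)) *
        (if r = j then 0 else X (Sum.inr r)) else 0) is.2)
  have hg : ∀ x ∈ T, coeff 0 (g x) = 0 := by
    intro x hx
    simp only [T, Finset.mem_map, Finset.mem_univ, true_and, Function.Embedding.coeFn_mk] at hx
    obtain ⟨⟨i, s⟩, rfl⟩ := hx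
    simp only [g, Sum.elim_inr]
    refine Fin.cases ?_ (fun s => ?_) s
    · simp only [Fin.cases_zero, coeff_sum, coeff_C_mul]
      exact Finset.sum_eq_zero fun s _ => by rw [coeff_zero_X, mul_zero]
    · simp only [Fin.cases_succ]
      split_ifs with hs
      · rw [coeff_sum]
        refine Finset.sum_eq_zero fun r _ => ?_
        rw [coeff_C_mul]
        split_ifs
        · simp
        · rw [coeff_zero_X, mul_zero]
      · simp
  have h1 : ∀ κ : Par n q →₀ ℕ, ∑ x ∈ T, κ x ≤ b1 + b2 →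
      (aeval (Sum.elim (xx z) y) : MvPolynomial (Vr n) k →ₐ[k] K).toRingHom
        (coeff κ (Th a0 j P)) = 0 := by
    intro κ hκ
    refine hcon κ ?_
    simpa [T, Finset.sum_map] using hκ
  have h2 := hNVC (MvPolynomial (Vr n) k) K (Par n q) (Fin n ⊕ Fin n)
    (aeval (Sum.elim (xx z) y) : MvPolynomial (Vr n) k →ₐ[k] K).toRingHom g T (b1 + b2)
    (Th a0 j P) hg h1
  have h3 : ∀ m : (Fin n ⊕ Fin n) →₀ ℕ, m.degree ≤ b1 + b2 → coeff m (NN a0 j z y P) = 0 := by
    intro m hm
    rw [← hNVB k K n q a0 j z y P]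
    exact h2 m hm
  apply hN0
  ext m
  rw [coeff_zero]
  by_cases hm : m.degree ≤ b1 + b2
  · exact h3 m hm
  · refine coeff_eq_zero_of_totalDegree_lt (lt_of_le_of_lt hNd ?_)
    push Not at hm
    rwa [Finsupp.degree] at hm

/-- a polynomial in the power of the ideal of the general hyperplane gives coefficients in powers
of the ideal of the given hyperplane -/
lemma th_mem (hTHT : T_THT) (hFIL : T_FIL) {k : Type} [Field k] {n q : ℕ}
    (a0 : Fin q → Fin (n + 1) → k) (j : Fin n) (i : Fin q) (w : ℕ)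
    (P : MvPolynomial (Vr n) (MvPolynomial (Fin q × Fin (n + 1)) k))
    (hP : P ∈ LI (gen k n q i) ^ w) (κ : Par n q →₀ ℕ) :
    coeff κ (Th a0 j P) ∈ LI (a0 i) ^ (w - ∑ s, κ (Sum.inr (i, s))) := by
  classical
  let T : Finset (Par n q) := Finset.univ.map ⟨fun s : Fin (n + 1) => Sum.inr (i, s), by
    intro s t h
    simpa using h⟩
  obtain ⟨h1, h2⟩ := hTHT k n q a0 j i
  have hC : ∀ c ∈ LI (a0 i), Fil (LI (a0 i)) T 1 (C c : PR k n q) := by
    intro c hc κ
    rw [coeff_C]
    split_ifs with h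
    · rw [← h]
      simpa using hc
    · exact Ideal.zero_mem _
  have hadd : ∀ (w : ℕ) (f g : PR k n q), Fil (LI (a0 i)) T w f → Fil (LI (a0 i)) T w g →
      Fil (LI (a0 i)) T w (f + g) := by
    intro w f g hf hg κ
    rw [coeff_add]
    exact Ideal.add_mem _ (hf κ) (hg κ)
  have hXC : ∀ (s : Fin (n + 1)) (c : MvPolynomial (Vr n) k),
      Fil (LI (a0 i)) T 1 ((X (Sum.inr (i, s)) : PR k n q) * C c) := by
    intro s c κ
    rw [mul_comm, coeff_C_mul, coeff_X']
    split_ifs with h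
    · have h3 : ∑ x ∈ T, κ x = 1 := by
        rw [← h]
        simp only [T, Finset.sum_map, Function.Embedding.coeFn_mk]
        rw [Finset.sum_eq_single s]
        · simp
        · intro b _ hb
          rw [Finsupp.single_apply, if_neg]
          intro h4
          apply hb
          simpa using h4.symm
        · simp
      rw [h3]
      simp
    · rw [mul_zero]
      exact Ideal.zero_mem _
  have hsum : ∀ (ι : Type) (s : Finset ι) (f : ι → PR k n q),
      (∀ x ∈ s, Fil (LI (a0 i)) T 1 (f x)) → Fil (LI (a0 i)) T 1 (∑ x ∈ s, f x) := by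
    intro ι s f hf
    induction s using Finset.induction_on with
    | empty =>
      intro κ
      simp
    | insert a s ha ih =>
      rw [Finset.sum_insert ha]
      exact hadd _ _ _ (hf a (Finset.mem_insert_self _ _))
        (ih fun x hx => hf x (Finset.mem_insert_of_mem hx))
  have hlX : Fil (LI (a0 i)) T 1 (Th a0 j (lX (gen k n q i))) := by
    rw [h1]
    refine hadd _ _ _ (hC _ (Ideal.subset_span (by simp))) (hsum _ _ _ fun s _ => hXC s _)
  have hlY : Fil (LI (a0 i)) T 1 (Th a0 j (lY (gen k n q i))) := by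
    rw [h2]
    refine hadd _ _ _ (hC _ (Ideal.subset_span (by simp))) (hsum _ _ _ fun s _ => hXC s.succ _)
  have h3 := hFIL (MvPolynomial (Vr n) k) (Par n q) T (LI (a0 i)) _ _ hlX hlY w (Th a0 j P) (by
    have h4 := Ideal.mem_map_of_mem (Th a0 j) hP
    rw [Ideal.map_pow, LI, Ideal.map_span, Set.image_pair] at h4
    exact h4) κ
  have h5 : ∑ x ∈ T, κ x = ∑ s, κ (Sum.inr (i, s)) := by
    simp [T, Finset.sum_map]
  rw [h5] at h3
  exact h3

theorem aux (hEXN : T_EXN) (hEXL : T_EXL) (hTHT : T_THT) (hFIL : T_FIL) (hBTH : T_BTH)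
    (hNVN : T_NVN) : T_AUX := by
  classical
  intro k _ _ n b1 b2 w q hn hnum
  obtain ⟨n, rfl⟩ : ∃ n', n = n' + 2 := ⟨n - 2, by omega⟩
  have h1 := hEXN n b1 b2 w q (by
    have : n + 2 - 1 = n + 1 := by omega
    rw [this] at hnum
    exact hnum)
  obtain ⟨P, hP0, hPb, hPm⟩ := hEXL (MvPolynomial (Fin q × Fin (n + 2 + 1)) k) (n + 1) b1 b2 w q
    (gen k (n + 2) q) (fun i => by
      unfold gen
      exact X_ne_zero _) h1
  obtain ⟨m, hm⟩ : ∃ m, coeff m P ≠ 0 := by
    by_contra hcon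
    push Not at hcon
    apply hP0
    ext m : 1
    rw [hcon m, coeff_zero]
  refine ⟨coeff m P, hm, fun a ha K _ _ z y hy => ?_⟩
  obtain ⟨j, hj⟩ := Function.ne_iff.1 hy
  have hne : MvPolynomial.map (eval fun is : Fin q × Fin (n + 2 + 1) => a is.1 is.2) P ≠ 0 := by
    intro h
    apply ha
    have := congrArg (coeff m) h
    rw [coeff_map, coeff_zero] at this
    exact this
  obtain ⟨κ, hκ, hκ0⟩ := hNVN k K (n + 2) q a j b1 b2 P hPb hne z y hj
  refine ⟨coeff κ (Th a j P), fun i => ∑ s, κ (Sum.inr (i, s)), hBTH k (n + 2) q a j b1 b2 P hPb κ,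
    ?_, fun i => th_mem hTHT hFIL a j i w P (hPm i) κ, hκ0⟩
  rw [← Fintype.sum_prod_type (f := fun is : Fin q × Fin (n + 2 + 1) => κ (Sum.inr is))]
  exact hκ

end Pool.Agent.H27.GH
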