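import Pool.Agent.H27.LV.Final

/-!
# MP_70ba79_ag: level one inequality for general hyperplanes, number of hyperplanes quadratic in `n`

Common definitions of the modules of the board `gh_modules`. Variables: `X_0, …, X_n` (a point,
`X_0 = 1`) and `Y_1, …, Y_n` (a tangent vector). The hyperplane `a` has the equation
`ℓ(X) = ∑ a_s X_s = 0`, its linear part is `ℓ'(Y) = ∑_{s ≥ 1} a_s Y_s`.
-/

set_option autoImplicit false

namespace Pool.Agent.H27.GH

open MvPolynomial SC Pool.Agent.H27.LV

/-- the variables `X_0, …, X_n`, `Y_1, …, Y_n` -/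
abbrev Vr (n : ℕ) : Type := Fin (n + 1) ⊕ Fin n

section Forms

variable {R : Type} [CommRing R] {n : ℕ}

/-- the linear form `ℓ(X) = ∑ a_s X_s` -/
noncomputable def lX (a : Fin (n + 1) → R) : MvPolynomial (Vr n) R :=
  ∑ s, C (a s) * X (Sum.inl s)

/-- its linear part `ℓ'(Y) = ∑_{s ≥ 1} a_s Y_s` -/
noncomputable def lY (a : Fin (n + 1) → R) : MvPolynomial (Vr n) R :=
  ∑ s : Fin n, C (a s.succ) * X (Sum.inr s)

/-- the ideal `(ℓ, ℓ')` -/
noncomputable def LI (a : Fin (n + 1) → R) : Ideal (MvPolynomial (Vr n) R) :=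
  Ideal.span {lX a, lY a}

/-- homogeneous of degree `b1` in the `X_s` and of degree `b2` in the `Y_s` -/
def Bih (b1 b2 : ℕ) (P : MvPolynomial (Vr n) R) : Prop :=
  ∀ m ∈ P.support, ∑ s, m (Sum.inl s) = b1 ∧ ∑ s, m (Sum.inr s) = b2

/-- all the coefficients are bihomogeneous -/
def CBih {σ : Type} (b1 b2 : ℕ) (Q : MvPolynomial σ (MvPolynomial (Vr n) R)) : Prop :=
  ∀ κ, Bih b1 b2 (coeff κ Q)

/-- filtration by the powers of an ideal of coefficients and the degree in the variables `T` -/
def Fil {σ : Type} {R : Type} [CommRing R] (J : Ideal R) (T : Finset σ) (w : ℕ)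
    (Q : MvPolynomial σ R) : Prop := ∀ κ, coeff κ Q ∈ J ^ (w - ∑ x ∈ T, κ x)

end Forms

/-- the coefficients of `q` general hyperplanes -/
noncomputable def gen (k : Type) [Field k] (n q : ℕ) (i : Fin q) :
    Fin (n + 1) → MvPolynomial (Fin q × Fin (n + 1)) k := fun s => X (i, s)

/-- parameters: `τ_s = inl (inl s)`, `v_s = inl (inr s)`, `u_is = inr (i, s)` -/
abbrev Par (n q : ℕ) : Type := (Fin n ⊕ Fin n) ⊕ (Fin q × Fin (n + 1))

/-- `k[X, Y][τ, v, u]` -/
abbrev PR (k : Type) [Field k] (n q : ℕ) : Type := MvPolynomial (Par n q) (MvPolynomial (Vr n) k)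

section Theta

variable {k : Type} [Field k] {n q : ℕ} (a0 : Fin q → Fin (n + 1) → k) (j : Fin n)

/-- the parameter `τ_s` -/
noncomputable def tv (s : Fin n) : PR k n q := X (Sum.inl (Sum.inl s))

/-- the parameter `v_s`, and `0` for `s = j` -/
noncomputable def vv' (s : Fin n) : PR k n q := if s = j then 0 else X (Sum.inl (Sum.inr s))

/-- `b_is = a0_is + u_is` -/
noncomputable def bb (i : Fin q) (s : Fin (n + 1)) : PR k n q := C (C (a0 i s)) + X (Sum.inr (i, s))

/-- `A_i = ∑ b_ir v_r` -/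
noncomputable def AA (i : Fin q) : PR k n q := ∑ r : Fin n, bb a0 i r.succ * vv' j r

/-- the hyperplane `b_i` composed with the inverse of the map `xT` -/
noncomputable def aT (i : Fin q) : Fin (n + 1) → PR k n q :=
  Fin.cons (bb a0 i 0 - ∑ s : Fin n, bb a0 i s.succ * tv s + tv j * AA a0 j i)
    (fun s => bb a0 i s.succ - if s = j then AA a0 j i else 0)

/-- `X_0`, `X_s + X_j v_s + X_0 τ_s` -/
noncomputable def xT : Fin (n + 1) → PR k n q :=
  Fin.cons (C (X (Sum.inl 0))) (fun s => C (X (Sum.inl s.succ)) +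
    C (X (Sum.inl j.succ)) * vv' j s + C (X (Sum.inl 0)) * tv s)

/-- `Y_s + Y_j v_s` -/
noncomputable def yT : Fin n → PR k n q :=
  fun s => C (X (Sum.inr s)) + C (X (Sum.inr j)) * vv' j s

/-- the substitution `a ↦ aT`, `X ↦ xT`, `Y ↦ yT` -/
noncomputable def Th : MvPolynomial (Vr n) (MvPolynomial (Fin q × Fin (n + 1)) k) →+* PR k n q :=
  eval₂Hom (eval₂Hom (C.comp C) (fun is => aT a0 j is.1 is.2)) (Sum.elim (xT j) (yT j))

/-- the same substitution at a point `(z, y)` and at the hyperplanes `a0`: the values are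
polynomials in `τ` and `v` -/
noncomputable def NN {K : Type} [Field K] [Algebra k K] (z y : Fin n → K) :
    MvPolynomial (Vr n) (MvPolynomial (Fin q × Fin (n + 1)) k) →+* MvPolynomial (Fin n ⊕ Fin n) K :=
  eval₂Hom ((C.comp (algebraMap k K)).comp (eval fun is => a0 is.1 is.2))
    (Sum.elim (Fin.cons 1 fun s => C (z s) + C (z j) * (if s = j then 0 else X (Sum.inr s)) +
      X (Sum.inl s)) (fun s => C (y s) + C (y j) * (if s = j then 0 else X (Sum.inr s))))

/-- the substitution `X = (1, z)`, `Y = y`, `u_i0 = ∑ a0_is τ_s`, `u_is = δ_sj ∑ a0_ir v_r` -/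
noncomputable def SU {K : Type} [Field K] [Algebra k K] (z y : Fin n → K) :
    PR k n q →+* MvPolynomial (Fin n ⊕ Fin n) K :=
  eval₂Hom (C.comp (aeval (Sum.elim (xx z) y)).toRingHom)
    (Sum.elim X fun is => Fin.cases (motive := fun _ => MvPolynomial (Fin n ⊕ Fin n) K)
      (∑ s : Fin n, C (algebraMap k K (a0 is.1 s.succ)) * X (Sum.inl s))
      (fun s => if s = j then ∑ r : Fin n, C (algebraMap k K (a0 is.1 r.succ)) *
        (if r = j then 0 else X (Sum.inr r)) else 0) is.2)

end Theta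

section Position

variable {k : Type} [Field k] {n q : ℕ}

/-- general position of the hyperplanes and of the hyperplane at infinity -/
def GP (a : Fin q → Fin (n + 1) → k) : Prop :=
  (∀ I : Finset (Fin q), I.card ≤ n →
    LinearIndependent k fun (i : I) (s : Fin n) => a i.1 s.succ) ∧
  ∀ I : Finset (Fin q), I.card = n + 1 → LinearIndependent k fun i : I => a i.1

/-- vectors dual to the linear parts of the forms in `I` -/
def Dual (a : Fin q → Fin (n + 1) → k) (I : Finset (Fin q)) (e : Fin q → Fin n → k) : Prop :=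
  ∀ i ∈ I, ∀ j ∈ I, ∑ r : Fin n, a j r.succ * e i r = if i = j then 1 else 0

end Position

/-- value of the linear part of the form `a` -/
def ellY {k K : Type} [Field k] [Field K] [Algebra k K] {n : ℕ} (a : Fin (n + 1) → k)
    (y : Fin n → K) : K := ∑ s : Fin n, algebraMap k K (a s.succ) * y s

end Pool.Agent.H27.GH
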