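import Pool.Agent.H27.GH.Targets
import Pool.Agent.H27.LV.LVX

/-!
# MP_70ba79_ag: target GLB, the global inequality
-/

set_option autoImplicit false

namespace Pool.Agent.H27.GH

open MvPolynomial SC Pool.Agent.H27.LV

theorem glb (hDVE : T_DVE) (hCI : T_CI) (hLOC : T_LOC') (hDFI : T_DFI) : T_GLB := by
  classical
  intro k K _ _ _ _ _ _ htr n q b1 b2 a D z R wt hGP hD hl hR hmem hh
  have hrat := fun v : DV k K => (rat k K htr v).2
  have hge : ∀ (v : DV k K) i, 0 ≤ v.ord (ell (a i) (xx z)) + poleOrder v z := by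
    intro v i
    rcases ge_ell v (a i) z with h | h
    · exact absurd h (hl i)
    · omega
  obtain ⟨h, hhd⟩ : ∃ h, h = aeval (Sum.elim (xx z) fun s => D (z s)) R := ⟨_, rfl⟩
  rw [← hhd] at hh
  -- finiteness
  have hPf : {v : DV k K | 0 < poleOrder v z}.Finite := by
    refine (pfi k K htr _ z).subset fun v hv => ?_
    simp only [Set.mem_ofPred_eq] at hv ⊢
    omega
  have hNf : ∀ i, {v : DV k K | poleOrder v z = 0 ∧ 0 < v.ord (ell (a i) (xx z))}.Finite := by
    intro i
    refine (pfm k K htr (ell (a i) (xx z))).1.subset fun v hv => ?_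
    simp only [Set.mem_ofPred_eq] at hv ⊢
    omega
  refine ⟨hPf, hNf, ?_⟩
  have hWf : ({v : DV k K | v.ord h ≠ 0} ∪ {v : DV k K | ordD v D ≠ 0} ∪
      {v : DV k K | poleOrder v z ≠ 0} ∪
      ⋃ i, {v : DV k K | v.ord (ell (a i) (xx z)) ≠ 0}).Finite :=
    (((pfm k K htr h).1.union (hDFI k K htr D hD)).union (pfi k K htr _ z)).union
      (Set.finite_iUnion fun i => (pfm k K htr _).1)
  obtain ⟨W, hW⟩ : ∃ W : Finset (DV k K), W = hWf.toFinset := ⟨_, rfl⟩
  have hmemW : ∀ v, v ∉ W → v.ord h = 0 ∧ ordD v D = 0 ∧ poleOrder v z = 0 ∧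
      ∀ i, v.ord (ell (a i) (xx z)) = 0 := by
    intro v hv
    rw [hW, Set.Finite.mem_toFinset] at hv
    simp only [Set.mem_union, Set.mem_ofPred_eq, Set.mem_iUnion, not_or, not_exists,
      Decidable.not_not] at hv
    exact ⟨hv.1.1.1, hv.1.1.2, hv.1.2, hv.2⟩
  have hs : ∀ f : DV k K → ℤ, (∀ v, v ∉ W → f v = 0) → ∑ᶠ v, f v = ∑ v ∈ W, f v := by
    intro f hf
    refine finsum_eq_sum_of_support_subset _ fun v hv => ?_
    by_contra hcon
    exact hv (hf v hcon)
  have s1 : ∑ v ∈ W, v.ord h = 0 := by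
    rw [← hs _ fun v hv => (hmemW v hv).1]
    exact (pfm k K htr h).2
  have s2 : ∑ v ∈ W, ordD v D = - canDeg D := by
    rw [← hs _ fun v hv => (hmemW v hv).2.1]
    unfold canDeg
    ring
  have s3 : ∑ v ∈ W, (poleOrder v z : ℤ) = deg k z := by
    rw [← hs _ fun v hv => by rw [(hmemW v hv).2.2.1]; rfl, cast_deg htr]
  have s4 : ∀ i, ∑ v ∈ W, v.ord (ell (a i) (xx z)) = 0 := by
    intro i
    rw [← hs _ fun v hv => (hmemW v hv).2.2.2 i]
    exact (pfm k K htr _).2
  have s5 : ∑ v ∈ W, (if 0 < poleOrder v z then (1 : ℤ) else 0) =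
      {v : DV k K | 0 < poleOrder v z}.ncard := by
    rw [Set.ncard_eq_toFinset_card _ hPf, ← Finset.sum_filter, Finset.sum_const, nsmul_eq_mul,
      mul_one]
    congr 2
    ext v
    simp only [Finset.mem_filter, Set.Finite.mem_toFinset, Set.mem_ofPred_eq, and_iff_right_iff_imp]
    intro hv
    by_contra hcon
    have := (hmemW v hcon).2.2.1
    omega
  have s6 : ∀ i, ∑ v ∈ W, (if poleOrder v z = 0 ∧ 0 < v.ord (ell (a i) (xx z)) then (1 : ℤ)
      else 0) = {v : DV k K | poleOrder v z = 0 ∧ 0 < v.ord (ell (a i) (xx z))}.ncard := by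
    intro i
    rw [Set.ncard_eq_toFinset_card _ (hNf i), ← Finset.sum_filter, Finset.sum_const, nsmul_eq_mul,
      mul_one]
    congr 2
    ext v
    simp only [Finset.mem_filter, Set.Finite.mem_toFinset, Set.mem_ofPred_eq, and_iff_right_iff_imp]
    intro hv
    by_contra hcon
    have := (hmemW v hcon).2.2.2 i
    omega
  -- the local inequality
  have hloc : ∀ v : DV k K, 0 ≤ v.ord h - b2 * ordD v D -
      ∑ i, (wt i : ℤ) * (v.ord (ell (a i) (xx z)) + poleOrder v z) +
      ∑ i, (wt i : ℤ) * (if poleOrder v z = 0 ∧ 0 < v.ord (ell (a i) (xx z)) then (1 : ℤ) else 0) +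
      (b1 + b2) * poleOrder v z + b2 * (if 0 < poleOrder v z then (1 : ℤ) else 0) := by
    intro v
    obtain ⟨I, hI⟩ : ∃ I : Finset (Fin q), I = Finset.univ.filter fun i =>
      0 < v.ord (ell (a i) (xx z)) + poleOrder v z := ⟨_, rfl⟩
    have hIm : ∀ i, i ∈ I ↔ 0 < v.ord (ell (a i) (xx z)) + poleOrder v z := by
      intro i
      rw [hI]
      simp
    have hIc : I.card ≤ n := by
      rw [hI]
      exact hCI k K n q a v z hGP (hrat v) hl
    obtain ⟨e, he⟩ := hDVE k n q a I (hGP.1 I hIc)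
    obtain ⟨l1, l2⟩ := hLOC k K n q b1 b2 a v D (ordD v D) z e R wt I (dor k K htr D hD v).2.1 hl
      hIm he hR hmem
    rw [← hhd] at l1 l2
    have hout : ∀ i, i ∉ I → v.ord (ell (a i) (xx z)) + poleOrder v z = 0 := by
      intro i hi
      rw [hIm] at hi
      have := hge v i
      omega
    by_cases hp : poleOrder v z = 0
    · have l3 := (l1 hp).resolve_left hh
      have e1 : ∑ i ∈ I, (wt i : ℤ) * (v.ord (ell (a i) (xx z)) - 1) =
          ∑ i, (wt i : ℤ) * (v.ord (ell (a i) (xx z)) + poleOrder v z) -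
          ∑ i, (wt i : ℤ) * (if poleOrder v z = 0 ∧ 0 < v.ord (ell (a i) (xx z)) then (1 : ℤ)
            else 0) := by
        rw [← Finset.sum_sub_distrib]
        refine Finset.sum_subset_zero_on_sdiff (Finset.subset_univ I) (fun i hi => ?_)
          (fun i hi => ?_)
        · have h1 : i ∉ I := by simpa using hi
          have h2 := hout i h1
          rw [hp] at h2
          simp only [Nat.cast_zero, add_zero] at h2
          rw [hp, if_neg (by omega), h2]
          simp
        · rw [hIm, hp] at hi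
          simp only [Nat.cast_zero, add_zero] at hi
          rw [if_pos ⟨hp, hi⟩, hp]
          simp only [Nat.cast_zero, add_zero]
          ring
      rw [e1] at l3
      rw [hp] at l3 ⊢
      simp only [Nat.cast_zero, mul_zero, add_zero, lt_self_iff_false, if_false] at l3 ⊢
      linarith
    · have l3 := l2.resolve_left hh
      have e1 : ∑ i ∈ I, (wt i : ℤ) * (v.ord (ell (a i) (xx z)) + poleOrder v z) =
          ∑ i, (wt i : ℤ) * (v.ord (ell (a i) (xx z)) + poleOrder v z) := by
        refine Finset.sum_subset (Finset.subset_univ I) fun i _ hi => ?_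
        rw [hout i hi, mul_zero]
      have e2 : ∑ i, (wt i : ℤ) * (if poleOrder v z = 0 ∧ 0 < v.ord (ell (a i) (xx z))
          then (1 : ℤ) else 0) = 0 := by
        refine Finset.sum_eq_zero fun i _ => ?_
        rw [if_neg (fun hc => hp hc.1), mul_zero]
      rw [e1] at l3
      rw [e2, if_pos (Nat.pos_of_ne_zero hp)]
      linarith
  have hsum := Finset.sum_nonneg fun v (_ : v ∈ W) => hloc v
  simp only [Finset.sum_add_distrib, Finset.sum_sub_distrib, ← Finset.mul_sum] at hsum
  rw [s1, s2, s3, s5, Finset.sum_comm, Finset.sum_comm (s := W) (t := Finset.univ)] at hsum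
  simp only [← Finset.mul_sum, s6, Finset.sum_add_distrib, s4, s3] at hsum
  have e3 : ∑ i, (wt i : ℤ) * ((deg k z : ℤ) -
      {v : DV k K | poleOrder v z = 0 ∧ 0 < v.ord (ell (a i) (xx z))}.ncard) =
      ∑ i, (wt i : ℤ) * (0 + (deg k z : ℤ)) - ∑ i, (wt i : ℤ) *
        ({v : DV k K | poleOrder v z = 0 ∧ 0 < v.ord (ell (a i) (xx z))}.ncard : ℤ) := by
    rw [← Finset.sum_sub_distrib]
    exact Finset.sum_congr rfl fun i _ => by ring
  rw [e3]
  linarith

end Pool.Agent.H27.GH
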