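import Pool.Agent.H27.GH.Auxi
import Pool.Agent.H27.GH.GLB

/-!
# MP_70ba79_ag: level one inequality for general hyperplanes and covers branched along them
-/

set_option autoImplicit false

namespace Pool.Agent.H27.GH

open MvPolynomial SC Pool.Agent.H27.LV

/-- the weights left after the differentiations -/
lemma sum_weights {q : ℕ} (w M : ℕ) (κ : Fin q → ℕ) (h : ∑ i, κ i ≤ M) :
    (w : ℤ) * q - M ≤ ∑ i, ((w - κ i : ℕ) : ℤ) := by
  have h1 : ∑ i : Fin q, ((w : ℤ) - κ i) ≤ ∑ i, ((w - κ i : ℕ) : ℤ) :=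
    Finset.sum_le_sum fun i _ => by omega
  rw [Finset.sum_sub_distrib, Finset.sum_const, Finset.card_univ, Fintype.card_fin,
    nsmul_eq_mul] at h1
  have h2 : ∑ i, (κ i : ℤ) ≤ M := by exact_mod_cast h
  linarith

/-- the inequality for one curve, with weights -/
theorem weighted (hAUX : T_AUX) (hGPO : T_GPO) (hGLB : T_GLB) (k : Type) [Field k] [IsAlgClosed k]
    [CharZero k] (n b1 b2 w q : ℕ) (hn : 2 ≤ n)
    (hnum : q * (n * (n - 1)) * (w * (w + 1)) < 2 * ((n + b1) * (n - 1 + b2))) :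
    ∃ Δ : MvPolynomial (Fin q × Fin (n + 1)) k, Δ ≠ 0 ∧ ∀ a : Fin q → Fin (n + 1) → k,
      eval (fun is => a is.1 is.2) Δ ≠ 0 →
      ∀ (K : Type) [Field K] [Algebra k K] [Algebra.EssFiniteType k K], Algebra.trdeg k K = 1 →
      ∀ z : Fin n → K, (∃ j, z j ∉ Set.range (algebraMap k K)) → (∀ i, ell (a i) (xx z) ≠ 0) →
      ∀ D : Derivation k K K, D ≠ 0 →
      {v : DV k K | 0 < poleOrder v z}.Finite ∧
      (∀ i, {v : DV k K | poleOrder v z = 0 ∧ 0 < v.ord (ell (a i) (xx z))}.Finite) ∧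
      ∃ wt : Fin q → ℕ, (∀ i, wt i ≤ w) ∧ (w : ℤ) * q - (b1 + b2) ≤ ∑ i, (wt i : ℤ) ∧
      ∑ i, (wt i : ℤ) * ((deg k z : ℤ) -
          {v : DV k K | poleOrder v z = 0 ∧ 0 < v.ord (ell (a i) (xx z))}.ncard) ≤
        (b1 + b2) * deg k z + b2 * (canDeg D + {v : DV k K | 0 < poleOrder v z}.ncard) := by
  have hinf : Infinite k := IsAlgClosed.instInfinite
  obtain ⟨Δ1, hΔ1, h1⟩ := hAUX k n b1 b2 w q hn hnum
  obtain ⟨Δ2, hΔ2, h2⟩ := hGPO k n q
  refine ⟨Δ1 * Δ2, mul_ne_zero hΔ1 hΔ2, fun a ha K _ _ _ htr z hz hl D hD => ?_⟩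
  rw [map_mul] at ha
  have hGP := h2 a (right_ne_zero_of_mul ha)
  obtain ⟨j, hj⟩ := hz
  have hy : (fun s => D (z s)) ≠ 0 := by
    intro h
    exact hj (ker k K htr D hD _ (congrFun h j))
  obtain ⟨R, κ, hR, hκ, hmem, hne⟩ := h1 a (left_ne_zero_of_mul ha) K z (fun s => D (z s)) hy
  obtain ⟨f1, f2, f3⟩ := hGLB k K htr n q b1 b2 a D z R (fun i => w - κ i) hGP hD hl hR hmem hne
  refine ⟨f1, f2, fun i => w - κ i, fun i => Nat.sub_le _ _, ?_, f3⟩
  have := sum_weights w (b1 + b2) κ hκ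
  push_cast at this
  exact this

/-- Level one inequality for general hyperplanes. -/
theorem level_one_general (hAUX : T_AUX) (hGPO : T_GPO) (hGLB : T_GLB) (k : Type) [Field k]
    [IsAlgClosed k] [CharZero k] (n b1 b2 w q : ℕ) (hn : 2 ≤ n)
    (hnum : q * (n * (n - 1)) * (w * (w + 1)) < 2 * ((n + b1) * (n - 1 + b2))) :
    ∃ Δ : MvPolynomial (Fin q × Fin (n + 1)) k, Δ ≠ 0 ∧ ∀ a : Fin q → Fin (n + 1) → k,
      eval (fun is => a is.1 is.2) Δ ≠ 0 →
      ∀ (K : Type) [Field K] [Algebra k K] [Algebra.EssFiniteType k K], Algebra.trdeg k K = 1 →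
      ∀ z : Fin n → K, (∃ j, z j ∉ Set.range (algebraMap k K)) → (∀ i, ell (a i) (xx z) ≠ 0) →
      ∀ D : Derivation k K K, D ≠ 0 →
      {v : DV k K | 0 < poleOrder v z}.Finite ∧
      {vi : DV k K × Fin q | poleOrder vi.1 z = 0 ∧ 0 < vi.1.ord (ell (a vi.2) (xx z))}.Finite ∧
      ((w : ℤ) * q - 2 * (b1 + b2)) * deg k z ≤
        w * {vi : DV k K × Fin q | poleOrder vi.1 z = 0 ∧
          0 < vi.1.ord (ell (a vi.2) (xx z))}.ncard +
        b2 * (canDeg D + {v : DV k K | 0 < poleOrder v z}.ncard) := by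
  classical
  obtain ⟨Δ, hΔ, h1⟩ := weighted hAUX hGPO hGLB k n b1 b2 w q hn hnum
  refine ⟨Δ, hΔ, fun a ha K _ _ _ htr z hz hl D hD => ?_⟩
  obtain ⟨f1, f2, wt, g1, g2, g3⟩ := h1 a ha K htr z hz hl D hD
  obtain ⟨N, hN⟩ : ∃ N : Fin q → ℤ, N = fun i =>
    ({v : DV k K | poleOrder v z = 0 ∧ 0 < v.ord (ell (a i) (xx z))}.ncard : ℤ) := ⟨_, rfl⟩
  -- the pairs
  obtain ⟨W, hW⟩ : ∃ W : Finset (DV k K), W = (Set.finite_iUnion f2).toFinset := ⟨_, rfl⟩
  have hmem : ∀ v i, (poleOrder v z = 0 ∧ 0 < v.ord (ell (a i) (xx z))) → v ∈ W := by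
    intro v i h
    rw [hW, Set.Finite.mem_toFinset, Set.mem_iUnion]
    exact ⟨i, h⟩
  have hT : {vi : DV k K × Fin q | poleOrder vi.1 z = 0 ∧ 0 < vi.1.ord (ell (a vi.2) (xx z))} =
      (((W ×ˢ (Finset.univ : Finset (Fin q))).filter fun vi => poleOrder vi.1 z = 0 ∧
        0 < vi.1.ord (ell (a vi.2) (xx z)) : Finset (DV k K × Fin q)) :
        Set (DV k K × Fin q)) := by
    ext ⟨v, i⟩
    simp only [Set.mem_ofPred_eq, Finset.coe_filter, Finset.mem_product, Finset.mem_univ, and_true]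
    exact ⟨fun hp => ⟨hmem v i hp, hp⟩, fun hp => hp.2⟩
  have hc : ({vi : DV k K × Fin q | poleOrder vi.1 z = 0 ∧
      0 < vi.1.ord (ell (a vi.2) (xx z))}.ncard : ℤ) = ∑ i, N i := by
    rw [hT, Set.ncard_coe_finset, Finset.card_filter, Finset.sum_product_right]
    push_cast
    refine Finset.sum_congr rfl fun i _ => ?_
    rw [hN]
    simp only
    rw [Set.ncard_eq_toFinset_card _ (f2 i), ← Finset.sum_filter, Finset.sum_const, nsmul_eq_mul,
      mul_one]
    congr 2
    ext v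
    simp only [Finset.mem_filter, Set.Finite.mem_toFinset, Set.mem_ofPred_eq,
      and_iff_right_iff_imp]
    exact fun hv => hmem v i hv
  refine ⟨f1, ?_, ?_⟩
  · rw [hT]
    exact Finset.finite_toSet _
  rw [hc]
  have hd0 : (0 : ℤ) ≤ deg k z := by positivity
  have hN0 : ∀ i, 0 ≤ N i := fun i => by rw [hN]; positivity
  have e1 : ∑ i, (wt i : ℤ) * ((deg k z : ℤ) - N i) ≤
      (b1 + b2) * deg k z + b2 * (canDeg D + {v : DV k K | 0 < poleOrder v z}.ncard) := by
    rw [hN]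
    exact g3
  have e2 : ∑ i, (wt i : ℤ) * ((deg k z : ℤ) - N i) ≥
      (∑ i, (wt i : ℤ)) * deg k z - w * ∑ i, N i := by
    rw [Finset.sum_mul, Finset.mul_sum, ← Finset.sum_sub_distrib]
    refine Finset.sum_le_sum fun i _ => ?_
    have h3 : (wt i : ℤ) ≤ w := by exact_mod_cast g1 i
    have := mul_le_mul_of_nonneg_right h3 (hN0 i)
    nlinarith
  have e3 := mul_le_mul_of_nonneg_right g2 hd0
  nlinarith

/-- The degree bound for the covers of affine varieties branched along `q` general hyperplanes. -/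
theorem cover_general (hAUX : T_AUX) (hGPO : T_GPO) (hGLB : T_GLB) (k : Type) [Field k]
    [IsAlgClosed k] [CharZero k] (n m b w q : ℕ) (hn : 2 ≤ n) (hm : 2 ≤ m)
    (hnum : q * (n * (n - 1)) * (w * (w + 1)) < 2 * ((n + b) * (n - 1 + b)))
    (hpos : (2 * m - 1) * (2 * b) < (m - 1) * (w * q)) :
    ∃ Δ : MvPolynomial (Fin q × Fin (n + 1)) k, Δ ≠ 0 ∧ ∀ a : Fin q → Fin (n + 1) → k,
      eval (fun is => a is.1 is.2) Δ ≠ 0 → ∀ μ : Fin q → ℕ, (∀ i, m ≤ μ i) →
      ∀ Q : Set (MvPolynomial (Fin n) k),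
      DegreeBound k (coverEqs Q a μ) (∏ i, X (Sum.inr i)) (fun χ => (m * b : ℕ) * χ) := by
  classical
  obtain ⟨Δ, hΔ, h1⟩ := weighted hAUX hGPO hGLB k n b b w q hn hnum
  refine ⟨Δ, hΔ, fun a ha μ hμ Q K _ _ _ htr S z hP hreg hnc hh D hD => ?_⟩
  obtain ⟨y, hy⟩ : ∃ y : Fin n → K, y = fun j => z (Sum.inl j) := ⟨_, rfl⟩
  obtain ⟨x, hx⟩ : ∃ x : Fin q → K, x = fun i => z (Sum.inr i) := ⟨_, rfl⟩
  have hz : z = Sum.elim y x := by
    funext s
    rcases s with j | i
    · rw [hy]; rfl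
    · rw [hx]; rfl
  have hx0 : ∀ i, x i ≠ 0 := by
    intro i h0
    apply hh
    rw [map_prod]
    refine Finset.prod_eq_zero (Finset.mem_univ i) ?_
    rw [aeval_X, ← h0, hx]
  have hxe : ∀ i, x i ^ μ i = ell (a i) (xx y) := by
    intro i
    have h1 := hP _ (Or.inr ⟨i, rfl⟩)
    simp only [map_sub, map_pow, aeval_X, map_add, map_sum, map_mul, aeval_C] at h1
    rw [sub_eq_zero] at h1
    rw [hx]
    simp only
    rw [h1]
    unfold ell xx
    rw [Fin.sum_univ_succ]
    simp only [Fin.cons_zero, Fin.cons_succ, mul_one, hy]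
  have hl : ∀ i, ell (a i) (xx y) ≠ 0 := by
    intro i
    rw [← hxe i]
    exact pow_ne_zero _ (hx0 i)
  have hnc' : ∃ j, y j ∉ Set.range (algebraMap k K) := by
    by_contra hcon
    push Not at hcon
    obtain ⟨s, hs⟩ := hnc
    apply hs
    rcases s with j | i
    · have := hcon j
      rw [hy] at this
      exact this
    · have h1 : ell (a i) (xx y) ∈ Set.range (algebraMap k K) := by
        have h2 : ∀ j, xx y j ∈ (algebraMap k K).range := by
          intro j
          refine Fin.cases ?_ (fun j => ?_) j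
          · exact one_mem _
          · exact hcon j
        have h3 : ell (a i) (xx y) ∈ (algebraMap k K).range :=
          sum_mem fun j _ => mul_mem ⟨_, rfl⟩ (h2 j)
        exact h3
      obtain ⟨c, hc⟩ := h1
      have h4 : IsAlgebraic k (x i ^ μ i) := by
        rw [hxe i, ← hc]
        exact isAlgebraic_algebraMap c
      have h5 : IsAlgebraic k (x i) := h4.of_pow (by have := hμ i; omega)
      have h6 := mem_range_of_isAlgebraic h5
      rw [hx] at h6
      exact h6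
  obtain ⟨f1, f2, wt, g1, g2, g3⟩ := h1 a ha K htr y hnc' hl D hD
  have hge : ∀ (v : DV k K) i, 0 ≤ v.ord (ell (a i) (xx y)) + poleOrder v y := by
    intro v i
    rcases ge_ell v (a i) y with h | h
    · exact absurd h (hl i)
    · omega
  have hordx : ∀ (v : DV k K) i, v.ord (ell (a i) (xx y)) = μ i * v.ord (x i) := by
    intro v i
    rw [← hxe, v.ord_pow]
  have hPf : (Function.support fun v : DV k K => (poleOrder v y : ℤ)).Finite := by
    refine (pfi k K htr _ y).subset fun v hv => ?_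
    simpa using hv
  -- each place is counted with multiplicity at least `m`
  have hNi : ∀ i, (m : ℤ) * {v : DV k K | poleOrder v y = 0 ∧
      0 < v.ord (ell (a i) (xx y))}.ncard ≤ deg k y := by
    intro i
    have hof : (Function.support fun v : DV k K =>
        v.ord (ell (a i) (xx y)) + (poleOrder v y : ℤ)).Finite :=
      ((pfm k K htr _).1.union hPf).subset (Function.support_add _ _)
    have e3 : ∑ᶠ v : DV k K, (v.ord (ell (a i) (xx y)) + (poleOrder v y : ℤ)) = deg k y := by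
      rw [finsum_add_distrib (pfm k K htr _).1 hPf, (pfm k K htr _).2, zero_add, cast_deg htr]
    rw [← e3]
    obtain ⟨W, hW⟩ : ∃ W : Finset (DV k K), W = hof.toFinset := ⟨_, rfl⟩
    rw [finsum_eq_sum_of_support_subset _ (s := W) (by rw [hW]; simp)]
    have hsub : (f2 i).toFinset ⊆ W := by
      intro v hv
      rw [Set.Finite.mem_toFinset] at hv
      rw [hW, Set.Finite.mem_toFinset, Function.mem_support]
      have := hv.2
      omega
    rw [Set.ncard_eq_toFinset_card _ (f2 i)]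
    calc (m : ℤ) * ((f2 i).toFinset.card : ℤ) = ∑ v ∈ (f2 i).toFinset, (m : ℤ) := by
          rw [Finset.sum_const, nsmul_eq_mul, mul_comm]
      _ ≤ ∑ v ∈ (f2 i).toFinset, (v.ord (ell (a i) (xx y)) + (poleOrder v y : ℤ)) := by
          refine Finset.sum_le_sum fun v hv => ?_
          rw [Set.Finite.mem_toFinset] at hv
          obtain ⟨hv1, hv2⟩ := hv
          rw [hv1]
          rw [hordx] at hv2 ⊢
          have h6 : (0 : ℤ) < v.ord (x i) := by
            by_contra hcon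
            push Not at hcon
            have : (μ i : ℤ) * v.ord (x i) ≤ 0 :=
              mul_nonpos_of_nonneg_of_nonpos (by positivity) hcon
            omega
          have h7 : (m : ℤ) ≤ μ i := by exact_mod_cast hμ i
          push_cast
          nlinarith
      _ ≤ _ := Finset.sum_le_sum_of_subset_of_nonneg hsub fun v _ _ => hge v i
  -- the points at infinity
  have hSc : ({v : DV k K | 0 < poleOrder v y}.ncard : ℤ) ≤ S.card := by
    have h2 : {v : DV k K | 0 < poleOrder v y} ⊆ (S : Set (DV k K)) := by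
      intro v hv
      by_contra hcon
      have hp : poleOrder v y = 0 := by
        rw [← Nat.le_zero]
        refine poleOrder_le v y 0 fun j => ?_
        have := hreg v hcon (Sum.inl j)
        rw [hy]
        simpa using this
      simp only [Set.mem_ofPred_eq] at hv
      omega
    have h3 := Set.ncard_le_ncard h2 (Finset.finite_toSet S)
    rw [Set.ncard_coe_finset] at h3
    exact_mod_cast h3
  -- comparison of the degrees
  have hpo : ∀ v : DV k K, poleOrder v (Sum.elim y x) ≤ poleOrder v y := by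
    intro v
    refine poleOrder_le v _ _ fun i => ?_
    rcases i with j | i
    · exact npole_le v y j
    · simp only [Sum.elim_inr]
      have h4 := hge v i
      rw [hordx] at h4
      have h7 : (2 : ℤ) ≤ μ i := by exact_mod_cast hm.trans (hμ i)
      by_contra hcon
      push Not at hcon
      nlinarith
  have hdeg : (deg k (Sum.elim y x) : ℤ) ≤ deg k y := by
    rw [cast_deg htr, cast_deg htr]
    have hPf' : (Function.support fun v : DV k K =>
        (poleOrder v (Sum.elim y x) : ℤ)).Finite := by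
      refine (pfi k K htr _ (Sum.elim y x)).subset fun v hv => ?_
      simpa using hv
    have h5 : 0 ≤ ∑ᶠ v : DV k K, ((poleOrder v y : ℤ) - poleOrder v (Sum.elim y x)) := by
      refine finsum_nonneg fun v => ?_
      have := hpo v
      omega
    rw [finsum_sub_distrib hPf hPf'] at h5
    omega
  rw [hz]
  refine hdeg.trans ?_
  -- final computation
  obtain ⟨N, hN⟩ : ∃ N : Fin q → ℤ, N = fun i =>
    ({v : DV k K | poleOrder v y = 0 ∧ 0 < v.ord (ell (a i) (xx y))}.ncard : ℤ) := ⟨_, rfl⟩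
  obtain ⟨d, hd⟩ : ∃ d : ℤ, d = deg k y := ⟨_, rfl⟩
  obtain ⟨ni, hni⟩ : ∃ c : ℤ, c = {v : DV k K | 0 < poleOrder v y}.ncard := ⟨_, rfl⟩
  have hNi' : ∀ i, (m : ℤ) * N i ≤ d := by
    intro i
    rw [hN, hd]
    exact hNi i
  have hd0 : 0 ≤ d := by rw [hd]; positivity
  rw [← hd] at g3 ⊢
  rw [← hni] at g3 hSc
  have e1 : ∑ i, (wt i : ℤ) * (d - N i) ≤ (b + b) * d + b * (canDeg D + ni) := by
    rw [hN]
    exact g3
  have e2 : (((m : ℤ) - 1) * ∑ i, (wt i : ℤ)) * d ≤ m * ∑ i, (wt i : ℤ) * (d - N i) := by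
    rw [Finset.mul_sum, Finset.mul_sum, Finset.sum_mul]
    refine Finset.sum_le_sum fun i _ => ?_
    have h3 := hNi' i
    have h4 : (0 : ℤ) ≤ wt i := by positivity
    nlinarith
  have hm1 : (1 : ℤ) ≤ (m : ℤ) - 1 := by
    have : (2 : ℤ) ≤ m := by exact_mod_cast hm
    linarith
  have e3 : ((m : ℤ) - 1) * ((w : ℤ) * q - (b + b)) ≤ ((m : ℤ) - 1) * ∑ i, (wt i : ℤ) :=
    mul_le_mul_of_nonneg_left g2 (by linarith)
  have e4 := mul_le_mul_of_nonneg_right e3 hd0
  have e5 := mul_le_mul_of_nonneg_left e1 (by positivity : (0 : ℤ) ≤ m)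
  have hpos' : (2 * (m : ℤ) - 1) * (2 * b) + 1 ≤ ((m : ℤ) - 1) * (w * q) := by
    have h3 : ((2 * m - 1 : ℕ) : ℤ) = 2 * (m : ℤ) - 1 := by omega
    have h4 : ((m - 1 : ℕ) : ℤ) = (m : ℤ) - 1 := by omega
    have h5 : (((2 * m - 1) * (2 * b) + 1 : ℕ) : ℤ) ≤ (((m - 1) * (w * q) : ℕ) : ℤ) := by
      exact_mod_cast hpos
    push_cast [h3, h4] at h5
    linarith
  have e6 : d ≤ (((m : ℤ) - 1) * (w * q) - (2 * m - 1) * (2 * b)) * d := by
    have : (1 : ℤ) ≤ ((m : ℤ) - 1) * (w * q) - (2 * m - 1) * (2 * b) := by linarith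
    nlinarith
  have e7 : (((m : ℤ) - 1) * (w * q) - (2 * m - 1) * (2 * b)) * d ≤
      m * (b * (canDeg D + ni)) := by nlinarith
  have e8 : (m : ℤ) * (b * (canDeg D + ni)) ≤ (m * b : ℕ) * (canDeg D + S.card) := by
    push_cast
    have : (0 : ℤ) ≤ m * b := by positivity
    nlinarith
  linarith

end Pool.Agent.H27.GH
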