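import Pool.Agent.H27.GH.Final

/-!
# The level one inequality for general hyperplanes in projective space
-/

set_option autoImplicit false

namespace Pool.Agent.H27.GH

open MvPolynomial SC Pool.Agent.H27.LV

/-- choice of the parameters -/
lemma num2 (n m q : ℕ) (hn : 2 ≤ n) (hm : 1 ≤ m) (hq : 12 * (n * (n - 1)) * m ^ 2 < q) :
    ∃ w c : ℕ, 1 ≤ w ∧ q * (n * (n - 1)) * (w * (w + 1)) < 2 * ((n + 3 * c) * (n - 1 + 2 * c)) ∧
      12 * c * m ≤ w * q := by
  obtain ⟨N, hN⟩ : ∃ N, N = n * (n - 1) := ⟨_, rfl⟩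
  obtain ⟨w, hw⟩ : ∃ w, w = 12 * m ^ 2 * (N + 2) := ⟨_, rfl⟩
  obtain ⟨c, hc⟩ : ∃ c, c = w * q / (12 * m) := ⟨_, rfl⟩
  rw [← hN] at hq ⊢
  have hm2 : 1 ≤ m ^ 2 := Nat.one_le_pow _ _ hm
  have hw1 : 24 ≤ w := by
    rw [hw]
    calc 24 = 12 * 1 * (0 + 2) := by norm_num
      _ ≤ 12 * m ^ 2 * (N + 2) := Nat.mul_le_mul (Nat.mul_le_mul_left _ hm2) (by omega)
  have hq1 : 1 ≤ q := by omega
  have h12 : 0 < 12 * m := by omega
  have h1 : 12 * m * c ≤ w * q := by rw [hc]; exact Nat.mul_div_le _ _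
  have h2 : w * q < 12 * m * (c + 1) := by
    rw [hc]
    exact Nat.lt_mul_div_succ _ h12
  have h3 : w * q ≤ 12 * m * (c + 1) := h2.le
  have h4 : (w * q) ^ 2 ≤ (12 * m * (c + 1)) ^ 2 := Nat.pow_le_pow_left h3 2
  have hc12 : 12 * c ≤ w * q := le_trans (by nlinarith) h1
  refine ⟨w, c, by omega, ?_, by linarith⟩
  have h5 : 2 * ((2 + 3 * c) * (1 + 2 * c)) ≤ 2 * ((n + 3 * c) * (n - 1 + 2 * c)) :=
    Nat.mul_le_mul_left _ (Nat.mul_le_mul (by omega) (by omega))
  refine lt_of_lt_of_le ?_ h5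
  -- compare after the multiplication by `12 m ^ 2`
  have h6 : 12 * m ^ 2 * (q * N * (w * (w + 1))) < 12 * m ^ 2 * (2 * ((2 + 3 * c) * (1 + 2 * c))) := by
    have e1 : 12 * m ^ 2 * (2 * ((2 + 3 * c) * (1 + 2 * c))) + 12 * m ^ 2 * (10 * c + 8) =
        (12 * m * (c + 1)) ^ 2 := by ring
    have e2 : 12 * m ^ 2 * (q * N * (w * (w + 1))) + w * (w * q) + 0 ≤
        (w * q) ^ 2 + 12 * m ^ 2 * N * (w * q) := by
      have : (12 * N * m ^ 2 + 1) * (w * (w * q)) ≤ q * (w * (w * q)) :=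
        Nat.mul_le_mul_right _ hq
      nlinarith
    have e3 : w * (w * q) = 12 * m ^ 2 * N * (w * q) + 24 * m ^ 2 * (w * q) := by
      have : w * (w * q) = 12 * m ^ 2 * (N + 2) * (w * q) := by rw [← hw]
      rw [this]
      ring
    have e4 : 12 * m ^ 2 * (10 * c + 8) < 24 * m ^ 2 * (w * q) := by
      have e5 : 10 * c + 8 < 2 * (w * q) := by
        have : 24 ≤ w * q := le_trans hw1 (Nat.le_mul_of_pos_right _ hq1)
        omega
      calc 12 * m ^ 2 * (10 * c + 8) < 12 * m ^ 2 * (2 * (w * q)) :=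
            Nat.mul_lt_mul_of_pos_left e5 (by positivity)
        _ = 24 * m ^ 2 * (w * q) := by ring
    omega
  exact Nat.lt_of_mul_lt_mul_left h6

/-- the pole order does not change if a constant coordinate is added -/
lemma poleOrder_xx {k K : Type} [Field k] [Field K] [Algebra k K] {n : ℕ} (v : DV k K)
    (z : Fin n → K) : poleOrder v (xx z) = poleOrder v z := by
  apply le_antisymm
  · refine poleOrder_le v _ _ fun s => ?_
    refine Fin.cases ?_ (fun s => ?_) s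
    · simp only [xx, Fin.cons_zero, v.ord_one]
      omega
    · exact npole_le v z s
  · refine poleOrder_le v _ _ fun s => ?_
    exact npole_le v (xx z) s.succ

lemma poleOrder_comp {k K : Type} [Field k] [Field K] [Algebra k K] {n : ℕ} (v : DV k K)
    (z : Fin (n + 1) → K) (σ : Equiv.Perm (Fin (n + 1))) :
    poleOrder v (z ∘ σ) = poleOrder v z := by
  apply le_antisymm
  · refine poleOrder_le v _ _ fun s => ?_
    exact npole_le v z (σ s)
  · refine poleOrder_le v _ _ fun s => ?_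
    have := npole_le v (z ∘ σ) (σ.symm s)
    simpa using this

/-- Level one inequality for general hyperplanes in projective space. -/
theorem level_one_proj (hAUX : T_AUX) (hGPO : T_GPO) (hGLB : T_GLB) (k : Type) [Field k]
    [IsAlgClosed k] [CharZero k] (n b1 b2 w q : ℕ) (hn : 2 ≤ n)
    (hnum : q * (n * (n - 1)) * (w * (w + 1)) < 2 * ((n + b1) * (n - 1 + b2))) :
    ∃ Δ : MvPolynomial (Fin q × Fin (n + 1)) k, Δ ≠ 0 ∧ ∀ a : Fin q → Fin (n + 1) → k,
      eval (fun is => a is.1 is.2) Δ ≠ 0 →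
      ∀ (K : Type) [Field K] [Algebra k K] [Algebra.EssFiniteType k K], Algebra.trdeg k K = 1 →
      ∀ z : Fin (n + 1) → K, (∃ j, z j = 1) → (∃ j, z j ∉ Set.range (algebraMap k K)) →
      (∀ i, ell (a i) z ≠ 0) → ∀ D : Derivation k K K, D ≠ 0 →
      {vi : DV k K × Fin q | 0 < vi.1.ord (ell (a vi.2) z) + poleOrder vi.1 z}.Finite ∧
      ((w : ℤ) * q - (2 * b1 + 3 * b2)) * deg k z ≤
        w * {vi : DV k K × Fin q | 0 < vi.1.ord (ell (a vi.2) z) + poleOrder vi.1 z}.ncard +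
        b2 * canDeg D := by
  classical
  obtain ⟨Δ, hΔ, h1⟩ := level_one_general hAUX hGPO hGLB k n b1 b2 w q hn hnum
  let σ : Fin (n + 1) → Equiv.Perm (Fin (n + 1)) := fun j => Equiv.swap 0 j
  let Δj : Fin (n + 1) → MvPolynomial (Fin q × Fin (n + 1)) k := fun j =>
    rename (fun is : Fin q × Fin (n + 1) => (is.1, σ j is.2)) Δ
  have hinj : ∀ j, Function.Injective (fun is : Fin q × Fin (n + 1) => (is.1, σ j is.2)) := by
    rintro j ⟨i, s⟩ ⟨i', s'⟩ h
    simp only [Prod.mk.injEq, EmbeddingLike.apply_eq_iff_eq] at h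
    exact Prod.ext h.1 h.2
  refine ⟨∏ j, Δj j, Finset.prod_ne_zero_iff.2 fun j _ hj => hΔ ?_, ?_⟩
  · exact (map_eq_zero_iff _ (rename_injective _ (hinj j))).1 hj
  intro a ha K _ _ _ htr z hz1 hz hl D hD
  obtain ⟨j, hj⟩ := hz1
  rw [map_prod] at ha
  have haj := Finset.prod_ne_zero_iff.1 ha j (Finset.mem_univ _)
  simp only [Δj, eval_rename] at haj
  -- the coordinates after the permutation
  obtain ⟨a', ha'⟩ : ∃ a' : Fin q → Fin (n + 1) → k, a' = fun i => a i ∘ σ j := ⟨_, rfl⟩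
  obtain ⟨z', hz'⟩ : ∃ z' : Fin n → K, z' = fun s => z (σ j s.succ) := ⟨_, rfl⟩
  have hxx : xx z' = z ∘ σ j := by
    funext s
    refine Fin.cases ?_ (fun s => ?_) s
    · simp only [xx, Fin.cons_zero, Function.comp_apply, σ, Equiv.swap_apply_left, hj]
    · simp only [xx, Fin.cons_succ, hz', Function.comp_apply]
  have hell : ∀ i, ell (a' i) (xx z') = ell (a i) z := by
    intro i
    rw [hxx, ha']
    unfold ell
    exact Equiv.sum_comp (σ j) (fun s => algebraMap k K (a i s) * z s)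
  have hpo : ∀ v : DV k K, poleOrder v z' = poleOrder v z := by
    intro v
    rw [← poleOrder_xx, hxx, poleOrder_comp]
  have hdeg : deg k z' = deg k z := by
    unfold deg
    exact finsum_congr hpo
  obtain ⟨f1, f2, f3⟩ := h1 a' (by rw [ha']; exact haj) K htr z' (by
    obtain ⟨s, hs⟩ := hz
    have hsj : s ≠ j := by
      rintro rfl
      apply hs
      rw [hj]
      exact ⟨1, map_one _⟩
    have h0 : (σ j).symm s ≠ 0 := by
      intro h
      apply hsj
      rw [Equiv.symm_apply_eq] at h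
      rw [h]
      simp [σ]
    obtain ⟨t, ht⟩ := Fin.exists_succ_eq.2 h0
    refine ⟨t, ?_⟩
    rw [hz']
    simp only
    rw [ht, Equiv.apply_symm_apply]
    exact hs) (fun i => by rw [hell]; exact hl i) D hD
  simp only [hell, hpo] at f1 f2 f3
  rw [hdeg] at f3
  -- all the places
  have hPf : {v : DV k K | poleOrder v z ≠ 0}.Finite := pfi k K htr _ z
  have hfin : {vi : DV k K × Fin q | 0 < vi.1.ord (ell (a vi.2) z) + poleOrder vi.1 z}.Finite := by
    have h2 : {v : DV k K | ∃ i, v.ord (ell (a i) z) ≠ 0}.Finite := by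
      have : {v : DV k K | ∃ i, v.ord (ell (a i) z) ≠ 0} =
          ⋃ i, {v : DV k K | v.ord (ell (a i) z) ≠ 0} := by
        ext v
        simp
      rw [this]
      exact Set.finite_iUnion fun i => (pfm k K htr _).1
    refine ((hPf.union h2).prod (Set.finite_univ (α := Fin q))).subset ?_
    rintro ⟨v, i⟩ hvi
    simp only [Set.mem_ofPred_eq, Set.mem_prod, Set.mem_union, Set.mem_univ, and_true] at hvi ⊢
    by_contra hcon
    push Not at hcon
    have := hcon.2 i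
    have := hcon.1
    omega
  refine ⟨hfin, ?_⟩
  have hsub : {vi : DV k K × Fin q | poleOrder vi.1 z = 0 ∧ 0 < vi.1.ord (ell (a vi.2) z)} ⊆
      {vi : DV k K × Fin q | 0 < vi.1.ord (ell (a vi.2) z) + poleOrder vi.1 z} := by
    rintro ⟨v, i⟩ ⟨h2, h3⟩
    simp only [Set.mem_ofPred_eq] at h2 h3 ⊢
    omega
  have hc1 := Set.ncard_le_ncard hsub hfin
  have hc2 : ({v : DV k K | 0 < poleOrder v z}.ncard : ℤ) ≤ deg k z := by
    have hsupp : (Function.support fun v : DV k K => (poleOrder v z : ℤ)).Finite := by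
      refine hPf.subset fun v hv => ?_
      simpa using hv
    rw [cast_deg htr, finsum_eq_sum_of_support_subset _ (s := hsupp.toFinset) (by simp),
      Set.ncard_eq_toFinset_card _ f1]
    calc (f1.toFinset.card : ℤ) = ∑ v ∈ f1.toFinset, (1 : ℤ) := by simp
      _ ≤ ∑ v ∈ f1.toFinset, (poleOrder v z : ℤ) := by
          refine Finset.sum_le_sum fun v hv => ?_
          rw [Set.Finite.mem_toFinset] at hv
          exact_mod_cast hv
      _ ≤ _ := by
          refine Finset.sum_le_sum_of_subset_of_nonneg (fun v hv => ?_) fun v _ _ => by positivity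
          rw [Set.Finite.mem_toFinset] at hv ⊢
          simp only [Set.mem_ofPred_eq, Function.mem_support] at hv ⊢
          have : poleOrder v z ≠ 0 := by omega
          exact_mod_cast this
  have hb : (0 : ℤ) ≤ b2 := by positivity
  have hw : (0 : ℤ) ≤ w := by positivity
  have hc1' : ({vi : DV k K × Fin q | poleOrder vi.1 z = 0 ∧
      0 < vi.1.ord (ell (a vi.2) z)}.ncard : ℤ) ≤
      {vi : DV k K × Fin q | 0 < vi.1.ord (ell (a vi.2) z) + poleOrder vi.1 z}.ncard := by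
    exact_mod_cast hc1
  have g1 := mul_le_mul_of_nonneg_left hc1' hw
  have g2 := mul_le_mul_of_nonneg_left hc2 hb
  nlinarith

/-- The inequality with a small loss. -/
theorem level_one_eps (hAUX : T_AUX) (hGPO : T_GPO) (hGLB : T_GLB) (k : Type) [Field k]
    [IsAlgClosed k] [CharZero k] (n m q : ℕ) (hn : 2 ≤ n) (hm : 1 ≤ m)
    (hq : 12 * (n * (n - 1)) * m ^ 2 < q) :
    ∃ Δ : MvPolynomial (Fin q × Fin (n + 1)) k, Δ ≠ 0 ∧ ∀ a : Fin q → Fin (n + 1) → k,
      eval (fun is => a is.1 is.2) Δ ≠ 0 →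
      ∀ (K : Type) [Field K] [Algebra k K] [Algebra.EssFiniteType k K], Algebra.trdeg k K = 1 →
      ∀ z : Fin (n + 1) → K, (∃ j, z j = 1) → (∃ j, z j ∉ Set.range (algebraMap k K)) →
      (∀ i, ell (a i) z ≠ 0) → ∀ D : Derivation k K K, D ≠ 0 →
      {vi : DV k K × Fin q | 0 < vi.1.ord (ell (a vi.2) z) + poleOrder vi.1 z}.Finite ∧
      (1 - 1 / (m : ℚ)) * q * deg k z ≤
        {vi : DV k K × Fin q | 0 < vi.1.ord (ell (a vi.2) z) + poleOrder vi.1 z}.ncard +
        (q / (6 * m) : ℚ) * max 0 (canDeg D) := by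
  obtain ⟨w, c, hw, h1, h2⟩ := num2 n m q hn hm hq
  obtain ⟨Δ, hΔ, h3⟩ := level_one_proj hAUX hGPO hGLB k n (3 * c) (2 * c) w q hn h1
  refine ⟨Δ, hΔ, fun a ha K _ _ _ htr z hz1 hz hl D hD => ?_⟩
  obtain ⟨f1, f2⟩ := h3 a ha K htr z hz1 hz hl D hD
  refine ⟨f1, ?_⟩
  obtain ⟨N, hN⟩ : ∃ N : ℕ, N = {vi : DV k K × Fin q |
    0 < vi.1.ord (ell (a vi.2) z) + poleOrder vi.1 z}.ncard := ⟨_, rfl⟩
  obtain ⟨g, hg⟩ : ∃ g : ℤ, g = canDeg D := ⟨_, rfl⟩
  obtain ⟨d, hd⟩ : ∃ d : ℕ, d = deg k z := ⟨_, rfl⟩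
  rw [← hN, ← hg, ← hd] at f2 ⊢
  have hm0 : (0 : ℚ) < m := by exact_mod_cast hm
  have hw0 : (0 : ℚ) < w := by exact_mod_cast hw
  have f3 : ((w : ℚ) * q - (2 * (3 * c) + 3 * (2 * c))) * d ≤ w * N + 2 * c * g := by
    exact_mod_cast f2
  have f4 : 12 * (c : ℚ) * m ≤ w * q := by exact_mod_cast h2
  have f5 : (c : ℚ) * g ≤ c * max 0 (g : ℚ) :=
    mul_le_mul_of_nonneg_left (le_max_right _ _) (by positivity)
  have f6 : 12 * (c : ℚ) ≤ w * (q / m) := by
    rw [← mul_div_assoc, le_div_iff₀ hm0]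
    exact f4
  have f7 : (0 : ℚ) ≤ max 0 (g : ℚ) := le_max_left _ _
  have f8 : (0 : ℚ) ≤ d := by positivity
  have g1 : 12 * (c : ℚ) * d ≤ w * (q / m) * d := mul_le_mul_of_nonneg_right f6 f8
  have g2 : 12 * (c : ℚ) * max 0 (g : ℚ) ≤ w * (q / m) * max 0 (g : ℚ) :=
    mul_le_mul_of_nonneg_right f6 f7
  have key : (w : ℚ) * ((1 - 1 / (m : ℚ)) * q * d) ≤
      w * (N + (q / (6 * m) : ℚ) * max 0 (g : ℚ)) := by
    have e1 : (w : ℚ) * ((1 - 1 / (m : ℚ)) * q * d) = w * q * d - w * (q / m) * d := by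
      field_simp
    have e2 : (w : ℚ) * (N + (q / (6 * m) : ℚ) * max 0 (g : ℚ)) =
        w * N + (w * (q / m) * max 0 (g : ℚ)) / 6 := by
      field_simp
    rw [e1, e2]
    nlinarith
  have := le_of_mul_le_mul_left key hw0
  push_cast
  exact this

end Pool.Agent.H27.GH
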