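import Pool.Agent.H27.GH.Defs

/-!
# MP_70ba79_ag: targets of the board `gh_modules`
-/

set_option autoImplicit false

namespace Pool.Agent.H27.GH

open MvPolynomial SC Pool.Agent.H27.LV

/-! ### Existence of the auxiliary polynomial -/

/-- EXC: number of the pairs of monomials with small exponents of `X_1` and `Y_1` -/
def T_EXC : Prop := ∀ n b1 b2 w : ℕ,
  2 * Fintype.card {p : Mon (n + 3) b1 × Mon (n + 2) b2 // p.1.1 1 + p.2.1 0 < w} ≤
    w * (w + 1) * (Fintype.card (Mon (n + 2) b1) * Fintype.card (Mon (n + 1) b2))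

/-- EXN: comparison of the numbers of unknowns and of equations -/
def T_EXN : Prop := ∀ n b1 b2 w q : ℕ,
  q * ((n + 2) * (n + 1)) * (w * (w + 1)) < 2 * ((n + 2 + b1) * (n + 1 + b2)) →
  q * Fintype.card {p : Mon (n + 3) b1 × Mon (n + 2) b2 // p.1.1 1 + p.2.1 0 < w} <
    Fintype.card (Mon (n + 3) b1) * Fintype.card (Mon (n + 2) b2)

/-- the substitution with `phi (lX a) = a_1 X_1`, `phi (lY a) = a_1 Y_1` -/
noncomputable def phi {R : Type} [CommRing R] {n : ℕ} (a : Fin (n + 2) → R) :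
    MvPolynomial (Vr (n + 1)) R →+* MvPolynomial (Vr (n + 1)) R :=
  eval₂Hom C (Sum.elim
    (fun s => if s = 1 then X (Sum.inl 1) - ∑ r ∈ Finset.univ.erase 1, C (a r) * X (Sum.inl r)
      else C (a 1) * X (Sum.inl s))
    (fun s => if s = 0 then X (Sum.inr 0) -
        ∑ r ∈ Finset.univ.erase (0 : Fin (n + 1)), C (a r.succ) * X (Sum.inr r)
      else C (a 1) * X (Sum.inr s)))

/-- SUB: vanishing coefficients of `phi P` give membership in a power of the ideal -/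
def T_SUB : Prop := ∀ (R : Type) [CommRing R] (n b1 b2 w : ℕ) (a : Fin (n + 2) → R)
  (P : MvPolynomial (Vr (n + 1)) R), Bih b1 b2 P →
  (∀ m : Vr (n + 1) →₀ ℕ, m (Sum.inl 1) + m (Sum.inr 0) < w → coeff m (phi a P) = 0) →
  C (a 1 ^ (b1 + b2)) * P ∈ LI a ^ w

/-- SBH: `phi` preserves bihomogeneous polynomials -/
def T_SBH : Prop := ∀ (R : Type) [CommRing R] (n b1 b2 : ℕ) (a : Fin (n + 2) → R)
  (P : MvPolynomial (Vr (n + 1)) R), Bih b1 b2 P → Bih b1 b2 (phi a P)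

/-- EXL: existence of the auxiliary polynomial -/
def T_EXL : Prop := ∀ (R : Type) [CommRing R] [IsDomain R] (n b1 b2 w q : ℕ)
  (a : Fin q → Fin (n + 2) → R), (∀ i, a i 1 ≠ 0) →
  q * Fintype.card {p : Mon (n + 2) b1 × Mon (n + 1) b2 // p.1.1 1 + p.2.1 0 < w} <
    Fintype.card (Mon (n + 2) b1) * Fintype.card (Mon (n + 1) b2) →
  ∃ P : MvPolynomial (Vr (n + 1)) R, P ≠ 0 ∧ Bih b1 b2 P ∧ ∀ i : Fin q, P ∈ LI (a i) ^ w

/-! ### Moving the hyperplanes -/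

/-- THT: the substitution `Th` maps the general hyperplane to `a0 + u` -/
def T_THT : Prop := ∀ (k : Type) [Field k] (n q : ℕ) (a0 : Fin q → Fin (n + 1) → k) (j : Fin n)
  (i : Fin q),
  Th a0 j (lX (gen k n q i)) =
    C (lX (a0 i)) + ∑ s : Fin (n + 1), (X (Sum.inr (i, s)) : PR k n q) * C (X (Sum.inl s)) ∧
  Th a0 j (lY (gen k n q i)) =
    C (lY (a0 i)) + ∑ s : Fin n, (X (Sum.inr (i, s.succ)) : PR k n q) * C (X (Sum.inr s))

/-- FIL: powers of an ideal and the filtration -/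
def T_FIL : Prop := ∀ (R : Type) [CommRing R] (σ : Type) (T : Finset σ) (J : Ideal R)
  (f g : MvPolynomial σ R), Fil J T 1 f → Fil J T 1 g →
  ∀ (w : ℕ) (Q : MvPolynomial σ R), Q ∈ Ideal.span {f, g} ^ w → Fil J T w Q

/-- BIC: bihomogeneity of the coefficients of a substitution -/
def T_BIC : Prop := ∀ (R S : Type) [CommRing R] [CommRing S] (n : ℕ) (σ : Type)
  (Φ : MvPolynomial (Vr n) R →+* MvPolynomial σ (MvPolynomial (Vr n) S)),
  (∀ r, CBih 0 0 (Φ (C r))) → (∀ s, CBih 1 0 (Φ (X (Sum.inl s)))) →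
  (∀ s, CBih 0 1 (Φ (X (Sum.inr s)))) →
  ∀ (b1 b2 : ℕ) (P : MvPolynomial (Vr n) R), Bih b1 b2 P → CBih b1 b2 (Φ P)

/-- BTH: the coefficients of `Th P` are bihomogeneous -/
def T_BTH : Prop := ∀ (k : Type) [Field k] (n q : ℕ) (a0 : Fin q → Fin (n + 1) → k) (j : Fin n)
  (b1 b2 : ℕ) (P : MvPolynomial (Vr n) (MvPolynomial (Fin q × Fin (n + 1)) k)), Bih b1 b2 P →
  CBih b1 b2 (Th a0 j P)

/-- NVA: the value at the moved point is a nonzero polynomial of degree at most `b1 + b2` -/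
def T_NVA : Prop := ∀ (k : Type) [Field k] [Infinite k] (K : Type) [Field K] [Algebra k K]
  (n q : ℕ) (a0 : Fin q → Fin (n + 1) → k) (j : Fin n) (b1 b2 : ℕ)
  (P : MvPolynomial (Vr n) (MvPolynomial (Fin q × Fin (n + 1)) k)), Bih b1 b2 P →
  MvPolynomial.map (eval fun is => a0 is.1 is.2) P ≠ 0 → ∀ z y : Fin n → K, y j ≠ 0 →
  NN a0 j z y P ≠ 0 ∧ (NN a0 j z y P).totalDegree ≤ b1 + b2

/-- NVB: moving the hyperplanes back -/
def T_NVB : Prop := ∀ (k : Type) [Field k] (K : Type) [Field K] [Algebra k K] (n q : ℕ)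
  (a0 : Fin q → Fin (n + 1) → k) (j : Fin n) (z y : Fin n → K)
  (P : MvPolynomial (Vr n) (MvPolynomial (Fin q × Fin (n + 1)) k)),
  SU a0 j z y (Th a0 j P) = NN a0 j z y P

/-- NVC: orders of vanishing under a substitution -/
def T_NVC : Prop := ∀ (R K : Type) [CommRing R] [CommRing K] (σ τ : Type) (ev : R →+* K)
  (g : σ → MvPolynomial τ K) (T : Finset σ) (M : ℕ) (Q : MvPolynomial σ R),
  (∀ x ∈ T, coeff 0 (g x) = 0) → (∀ κ, ∑ x ∈ T, κ x ≤ M → ev (coeff κ Q) = 0) →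
  ∀ m : τ →₀ ℕ, m.degree ≤ M → coeff m (eval₂Hom (C.comp ev) g Q) = 0

/-- NVN: one of the coefficients of low degree does not vanish at the given point -/
def T_NVN : Prop := ∀ (k : Type) [Field k] [Infinite k] (K : Type) [Field K] [Algebra k K]
  (n q : ℕ) (a0 : Fin q → Fin (n + 1) → k) (j : Fin n) (b1 b2 : ℕ)
  (P : MvPolynomial (Vr n) (MvPolynomial (Fin q × Fin (n + 1)) k)), Bih b1 b2 P →
  MvPolynomial.map (eval fun is => a0 is.1 is.2) P ≠ 0 → ∀ z y : Fin n → K, y j ≠ 0 →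
  ∃ κ : Par n q →₀ ℕ, ∑ is : Fin q × Fin (n + 1), κ (Sum.inr is) ≤ b1 + b2 ∧
    aeval (Sum.elim (xx z) y) (coeff κ (Th a0 j P)) ≠ 0

/-- AUX: the auxiliary polynomials -/
def T_AUX : Prop := ∀ (k : Type) [Field k] [Infinite k] (n b1 b2 w q : ℕ), 2 ≤ n →
  q * (n * (n - 1)) * (w * (w + 1)) < 2 * ((n + b1) * (n - 1 + b2)) →
  ∃ Δ : MvPolynomial (Fin q × Fin (n + 1)) k, Δ ≠ 0 ∧ ∀ a : Fin q → Fin (n + 1) → k,
    eval (fun is => a is.1 is.2) Δ ≠ 0 →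
    ∀ (K : Type) [Field K] [Algebra k K] (z y : Fin n → K), y ≠ 0 →
    ∃ (R : MvPolynomial (Vr n) k) (κ : Fin q → ℕ), Bih b1 b2 R ∧ ∑ i, κ i ≤ b1 + b2 ∧
      (∀ i, R ∈ LI (a i) ^ (w - κ i)) ∧ aeval (Sum.elim (xx z) y) R ≠ 0

/-! ### General position -/

/-- GPO: general hyperplanes are in general position -/
def T_GPO : Prop := ∀ (k : Type) [Field k] (n q : ℕ),
  ∃ Δ : MvPolynomial (Fin q × Fin (n + 1)) k, Δ ≠ 0 ∧ ∀ a : Fin q → Fin (n + 1) → k,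
    eval (fun is => a is.1 is.2) Δ ≠ 0 → GP a

/-- DVE: dual vectors -/
def T_DVE : Prop := ∀ (k : Type) [Field k] (n q : ℕ) (a : Fin q → Fin (n + 1) → k)
  (I : Finset (Fin q)), (LinearIndependent k fun (i : I) (s : Fin n) => a i.1 s.succ) →
  ∃ e : Fin q → Fin n → k, Dual a I e

/-- CI: at most `n` of the hyperplanes contain the image of a place -/
def T_CI : Prop := ∀ (k K : Type) [Field k] [Field K] [Algebra k K] (n q : ℕ)
  (a : Fin q → Fin (n + 1) → k) (v : DV k K) (z : Fin n → K), GP a →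
  (∀ x : K, 0 ≤ v.ord x → ∃ c : k, ge v 1 (x - algebraMap k K c)) →
  (∀ i, ell (a i) (xx z) ≠ 0) →
  (Finset.univ.filter fun i => 0 < v.ord (ell (a i) (xx z)) + poleOrder v z).card ≤ n

/-! ### Local estimates -/

/-- PSI: expansion adapted to the hyperplanes in `I` -/
def T_PSI : Prop := ∀ (k K : Type) [Field k] [Field K] [Algebra k K] (n q b1 b2 : ℕ)
  (a : Fin q → Fin (n + 1) → k) (I : Finset (Fin q)) (e : Fin q → Fin n → k), Dual a I e →
  ∀ (R : MvPolynomial (Vr n) k) (wt : Fin q → ℕ), Bih b1 b2 R → (∀ i ∈ I, R ∈ LI (a i) ^ wt i) →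
  ∀ (x : Fin (n + 1) → K) (y : Fin n → K) (s : Fin q → K), (∀ i ∈ I, s i ≠ 0) →
  ∃ (Γ : Finset (Fin q →₀ ℕ)) (F : (Fin q →₀ ℕ) → MvPolynomial (Vr n) k),
    (∀ γ ∈ Γ, Bih b1 b2 (F γ) ∧ ∀ i ∈ I, wt i ≤ γ i) ∧
    aeval (Sum.elim x y) R = ∑ γ ∈ Γ, (∏ i ∈ I, s i ^ γ i) *
      aeval (Sum.elim
        (Fin.cons (x 0) fun r : Fin n => x r.succ +
          ∑ i ∈ I, ((s i)⁻¹ - 1) * ell (a i) x * algebraMap k K (e i r))
        (fun r : Fin n => y r + ∑ i ∈ I, ((s i)⁻¹ - 1) * ellY (a i) y * algebraMap k K (e i r)))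
        (F γ)

/-- EVB: estimate of the values of a bihomogeneous polynomial -/
def T_EVB : Prop := ∀ (k K : Type) [Field k] [Field K] [Algebra k K] (v : DV k K) (n b1 b2 : ℕ)
  (R : MvPolynomial (Vr n) k), Bih b1 b2 R → ∀ (x : Fin (n + 1) → K) (y : Fin n → K) (p1 p2 : ℤ),
  (∀ s, ge v p1 (x s)) → (∀ s, ge v p2 (y s)) →
  ge v (b1 * p1 + b2 * p2) (aeval (Sum.elim x y) R)

/-- LOC: the local estimates -/
def T_LOC' : Prop := ∀ (k K : Type) [Field k] [Field K] [Algebra k K] (n q b1 b2 : ℕ)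
  (a : Fin q → Fin (n + 1) → k) (v : DV k K) (D : Derivation k K K) (δ : ℤ) (z : Fin n → K)
  (e : Fin q → Fin n → k) (R : MvPolynomial (Vr n) k) (wt : Fin q → ℕ) (I : Finset (Fin q)),
  DOrd v D δ → (∀ i, ell (a i) (xx z) ≠ 0) →
  (∀ i, i ∈ I ↔ 0 < v.ord (ell (a i) (xx z)) + poleOrder v z) → Dual a I e → Bih b1 b2 R →
  (∀ i, R ∈ LI (a i) ^ wt i) →
  (poleOrder v z = 0 → ge v (b2 * δ + ∑ i ∈ I, (wt i : ℤ) * (v.ord (ell (a i) (xx z)) - 1))
    (aeval (Sum.elim (xx z) fun s => D (z s)) R)) ∧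
  ge v (b2 * δ - (b1 + b2) * poleOrder v z - b2 +
      ∑ i ∈ I, (wt i : ℤ) * (v.ord (ell (a i) (xx z)) + poleOrder v z))
    (aeval (Sum.elim (xx z) fun s => D (z s)) R)

/-! ### Global statements -/

/-- GLB: the global inequality, for a given auxiliary polynomial -/
def T_GLB : Prop := ∀ (k K : Type) [Field k] [IsAlgClosed k] [CharZero k] [Field K] [Algebra k K]
  [Algebra.EssFiniteType k K], Algebra.trdeg k K = 1 → ∀ (n q b1 b2 : ℕ)
  (a : Fin q → Fin (n + 1) → k) (D : Derivation k K K) (z : Fin n → K)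
  (R : MvPolynomial (Vr n) k) (wt : Fin q → ℕ), GP a → D ≠ 0 →
  (∀ i, ell (a i) (xx z) ≠ 0) → Bih b1 b2 R → (∀ i, R ∈ LI (a i) ^ wt i) →
  aeval (Sum.elim (xx z) fun s => D (z s)) R ≠ 0 →
  {v : DV k K | 0 < poleOrder v z}.Finite ∧
  (∀ i, {v : DV k K | poleOrder v z = 0 ∧ 0 < v.ord (ell (a i) (xx z))}.Finite) ∧
  ∑ i, (wt i : ℤ) * ((deg k z : ℤ) -
      {v : DV k K | poleOrder v z = 0 ∧ 0 < v.ord (ell (a i) (xx z))}.ncard) ≤
    (b1 + b2) * deg k z + b2 * (canDeg D + {v : DV k K | 0 < poleOrder v z}.ncard)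

/-- NUM: choice of the parameters -/
def T_NUM : Prop := ∀ n m q : ℕ, 2 ≤ n → 2 ≤ m →
  2 * (n * (n - 1)) * (2 * m - 1) ^ 2 < (m - 1) ^ 2 * q →
  ∃ w b : ℕ, w = 2 * (n * (n - 1)) * (2 * m - 1) ^ 2 + 1 ∧
    q * (n * (n - 1)) * (w * (w + 1)) < 2 * ((n + b) * (n - 1 + b)) ∧
    (2 * m - 1) * (2 * b) < (m - 1) * (w * q) ∧ b ≤ w * q

end Pool.Agent.H27.GH
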